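import Mathlib

namespace Pool.Agent.Results.MP_9ed947_gt.No

open MeasureTheory Set UpperHalfPlane

/-- The nonempty, pairwise disjoint sets `A i` have union `X`. -/
def IsPartition {ι : Type} (X : Set ℍ) (A : ι → Set ℍ) : Prop :=
  (∀ i, (A i).Nonempty) ∧ (∀ i j, i ≠ j → Disjoint (A i) (A j)) ∧ ⋃ i, A i = X

/-- Property `(*_c)` in the upper half-plane model with its hyperbolic distance and area. -/
def Star (c : ℝ) : Prop :=
  ∀ (X : Set ℍ) (m n : ℕ) (ρ : Fin m → ℍ ≃ᵢ ℍ) (σ : Fin n → ℍ ≃ᵢ ℍ) (A : Fin m → Set ℍ)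
    (B : Fin n → Set ℍ), NullMeasurableSet X → 1 ≤ m → 1 ≤ n → IsPartition X A → IsPartition X B →
    IsPartition X (Sum.elim (fun i => ρ i '' A i) (fun j => σ j '' B j)) →
    (∀ i, NullMeasurableSet (A i)) → (∀ j, NullMeasurableSet (B j)) →
    volume X = 0 ∨ ∀ P : ℍ, (∃ i, c ≤ dist P (ρ i P)) ∨ ∃ j, c ≤ dist P (σ j P)

theorem result : ¬ ∃ c > Real.log 2, Star c := by
  rintro ⟨c, hc, h⟩
  let a : {x : ℝ // 0 < x} := ⟨1 / 2, by norm_num⟩
  let ρ : ℍ ≃ᵢ ℍ := ⟨MulAction.toPerm a, isometry_pos_mul a⟩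
  let τ : ℍ ≃ᵢ ℍ := ⟨AddAction.toPerm (1 / 2 : ℝ), isometry_real_vadd _⟩
  have r1 : ∀ z, (ρ z).re = z.re / 2 := fun z => (pos_real_re a z).trans (by simp only [a]; ring)
  have r2 : ∀ z, (ρ z).im = z.im / 2 := fun z => (pos_real_im a z).trans (by simp only [a]; ring)
  have t1 : ∀ z, (τ z).re = 1 / 2 + z.re := fun z => vadd_re _ z
  have t2 : ∀ z, (τ z).im = z.im := fun z => vadd_im _ z
  set X : Set ℍ := {z | 0 ≤ z.re ∧ z.re < 1} with hX
  have mX : MeasurableSet X := continuous_re.measurable (measurableSet_Ico (a := 0) (b := 1))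
  have nX : X.Nonempty := ⟨I, by simp [hX]⟩
  have pX : IsPartition X fun _ : Fin 1 => X :=
    ⟨fun _ => nX, fun i j hij => (hij (Subsingleton.elim i j)).elim, iUnion_const _⟩
  have d : Disjoint (ρ '' X) ((ρ.trans τ) '' X) := by
    rw [Set.disjoint_left]
    rintro _ ⟨z, hz, rfl⟩ ⟨w, hw, e⟩
    have := congrArg UpperHalfPlane.re e
    rw [IsometryEquiv.trans_apply, t1, r1, r1] at this
    linarith [hz.2, hw.1]
  rcases h X 1 1 (fun _ => ρ) (fun _ => ρ.trans τ) (fun _ => X) (fun _ => X) mX.nullMeasurableSet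
    le_rfl le_rfl pX pX ⟨by rintro (i | i) <;> exact nX.image _, by
      rintro (i | i) (j | j) hij
      · exact (hij (congrArg _ (Subsingleton.elim i j))).elim
      · exact d
      · exact d.symm
      · exact (hij (congrArg _ (Subsingleton.elim i j))).elim, by
      ext z
      simp only [mem_iUnion, Sum.exists, Sum.elim_inl, Sum.elim_inr, exists_const]
      constructor
      · rintro (⟨w, hw, rfl⟩ | ⟨w, hw, rfl⟩)
        · exact ⟨by linarith [r1 w, hw.1], by linarith [r1 w, hw.2]⟩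
        · rw [IsometryEquiv.trans_apply]
          exact ⟨by linarith [r1 w, hw.1, t1 (ρ w)], by linarith [r1 w, hw.2, t1 (ρ w)]⟩
      · intro hz
        rcases lt_or_ge z.re (1 / 2) with b | b
        · have := r1 (ρ.symm z)
          rw [ρ.apply_symm_apply] at this
          exact Or.inl ⟨ρ.symm z, ⟨by linarith [hz.1], by linarith⟩, ρ.apply_symm_apply z⟩
        · have := t1 (ρ ((ρ.trans τ).symm z))
          rw [← IsometryEquiv.trans_apply, IsometryEquiv.apply_symm_apply, r1] at this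
          exact Or.inr ⟨_, ⟨by linarith, by linarith [hz.2]⟩, (ρ.trans τ).apply_symm_apply z⟩⟩
    (fun _ => mX.nullMeasurableSet) (fun _ => mX.nullMeasurableSet) with h0 | h1
  · rw [volume_def, withDensity_apply_eq_zero (by fun_prop)] at h0
    have o : IsOpen {z : ℍ | 0 < z.re ∧ z.re < 1} := isOpen_Ioo.preimage continuous_re
    have := (isOpenEmbedding_coe.isOpenMap _ o).measure_pos volume
      ⟨_, ⟨⟨1 / 2, 1⟩, one_pos⟩, ⟨by norm_num [UpperHalfPlane.re], by norm_num [UpperHalfPlane.re]⟩, rfl⟩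
    rw [← measurableEmbedding_coe.comap_apply] at this
    refine this.ne' (measure_mono_null (fun z hz => mem_inter ?_ (show z ∈ X from ⟨hz.1.le, hz.2⟩)) h0)
    simpa [← NNReal.coe_eq_zero] using z.im_ne_zero
  · have e : 0 < c - Real.log 2 := sub_pos.2 hc
    let P : ℍ := ⟨⟨0, 2 / (c - Real.log 2)⟩, by positivity⟩
    have p1 : P.im = 2 / (c - Real.log 2) := rfl
    have q1 : dist P (ρ P) = Real.log 2 := by
      rw [dist_of_re_eq (by rw [r1]; simp [P, UpperHalfPlane.re]), r2,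
        Real.log_div P.im_ne_zero two_ne_zero, Real.dist_eq, sub_sub_cancel,
        abs_of_pos (Real.log_pos one_lt_two)]
    have q2 : dist (ρ P) (τ (ρ P)) ≤ (c - Real.log 2) / 2 := by
      refine (dist_le_dist_coe_div_sqrt _ _).trans (le_of_eq ?_)
      rw [t2, Real.sqrt_mul_self (ρ P).im_pos.le, r2, p1, Complex.dist_of_im_eq (t2 _).symm,
        Real.dist_eq, coe_re, coe_re, t1, abs_of_nonpos (by linarith)]
      field_simp
      ring
    rcases h1 P with ⟨_, b⟩ | ⟨_, b⟩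
    · linarith
    · linarith [dist_triangle P (ρ P) (τ (ρ P)), IsometryEquiv.trans_apply ρ τ P ▸ b]

end Pool.Agent.Results.MP_9ed947_gt.No
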